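import Pool.Agent.Lib.MP_4d3693_an.Dual

/-!
# MP_4d3693_an, Q1: a smooth bounded pseudoconvex domain whose Bergman projection is bounded on `L^p` for `p = 2` only

The domain is a complete Reinhardt domain in `ℂ²`.
-/

open MeasureTheory

namespace Pool.Agent.Results.MP_4d3693_an.OnlyTwo

/-- `g` is the Bergman projection of `f` on `Ω`: `g` belongs to the Bergman space (holomorphic and square
integrable) and `f - g` is orthogonal to the Bergman space. -/
def IsProjection {n : ℕ} (Ω : Set (Fin n → ℂ)) (f g : (Fin n → ℂ) → ℂ) : Prop :=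
  DifferentiableOn ℂ g Ω ∧ MemLp g 2 (volume.restrict Ω) ∧
    ∀ h : (Fin n → ℂ) → ℂ, DifferentiableOn ℂ h Ω → MemLp h 2 (volume.restrict Ω) →
      ∫ x in Ω, (f x - g x) * starRingEnd ℂ (h x) = 0

/-- the `L^p` mapping interval of `Ω`: the `p` in `(1,∞)` for which there is a constant `C` with
`‖B f‖_p ≤ C ‖f‖_p` for all `f` in `L² ∩ L^p`. -/
def mappingInterval {n : ℕ} (Ω : Set (Fin n → ℂ)) : Set ℝ :=
  {p | 1 < p ∧ ∃ C : NNReal, ∀ f g : (Fin n → ℂ) → ℂ,
    MemLp f 2 (volume.restrict Ω) → MemLp f (ENNReal.ofReal p) (volume.restrict Ω) →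
    IsProjection Ω f g →
    eLpNorm g (ENNReal.ofReal p) (volume.restrict Ω) ≤
      (C : ENNReal) * eLpNorm f (ENNReal.ofReal p) (volume.restrict Ω)}

end Pool.Agent.Results.MP_4d3693_an.OnlyTwo

open Pool.Agent.Results.MP_4d3693_an.OnlyTwo Pool.Agent.Lib.MP_4d3693_an in
/-- There is a smooth function `ρ` on `ℂ²` such that the sublevel set `{ρ < 0}` is a bounded domain with
smooth boundary, pseudoconvex (nonnegative Levi form at the boundary), complete Reinhardt, and its Bergman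
projection is bounded on `L^p` for `p = 2` and for no other `p` in `(1,∞)`. -/
theorem Pool.Agent.Results.MP_4d3693_an.OnlyTwo.result :
    ∃ ρ : (Fin 2 → ℂ) → ℝ,
      ContDiff ℝ ((⊤ : ℕ∞) : WithTop ℕ∞) ρ ∧
      (∀ z, ρ z = 0 → fderiv ℝ ρ z ≠ 0) ∧
      Bornology.IsBounded {z | ρ z < 0} ∧
      IsConnected {z | ρ z < 0} ∧
      (∀ z w : Fin 2 → ℂ, ρ z < 0 → (∀ i, ‖w i‖ ≤ ‖z i‖) → ρ w < 0) ∧
      (∀ z, ρ z = 0 → ∀ w : Fin 2 → ℂ,
        0 ≤ fderiv ℝ (fderiv ℝ ρ) z w w
            + fderiv ℝ (fderiv ℝ ρ) z (Complex.I • w) (Complex.I • w)) ∧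
      mappingInterval {z | ρ z < 0} = {2} := by
  refine ⟨rho, rho_contDiff, rho_regular, Om_bounded, Om_connected, ?_, rho_levi, ?_⟩
  · intro z w hz hw
    unfold rho at hz ⊢
    have h1 : ∀ i, ‖w i‖ ^ 2 ≤ ‖z i‖ ^ 2 := fun i => by
      have := hw i
      gcongr
    have h2 := M_mono (h1 0)
    linarith [h1 1]
  · change mappingInterval Om = {2}
    ext p
    rw [Set.mem_singleton_iff]
    constructor
    · rintro ⟨hp1, C, hC⟩
      by_contra hne
      rcases lt_or_gt_of_ne hne with h | h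
      · obtain ⟨f, g, hf1, hf2, hg1, hg2, horth, hneg⟩ := failure_low hp1 h C
        exact hneg (hC f g hf1 hf2 ⟨hg1, hg2, horth⟩)
      · obtain ⟨f, g, hf1, hf2, hg1, hg2, horth, hneg⟩ := failure h C
        exact hneg (hC f g hf1 hf2 ⟨hg1, hg2, horth⟩)
    · rintro rfl
      refine ⟨one_lt_two, 1, ?_⟩
      intro f g hf _ hproj
      have h2 : ENNReal.ofReal (2 : ℝ) = 2 := by simp
      rw [h2, ENNReal.coe_one, one_mul]
      exact contraction Om hf hproj.2.1 (hproj.2.2 g hproj.1 hproj.2.1)
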